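import Mathlib
import Pool.Agent.H17.Anti

set_option autoImplicit false

namespace Pool.Agent.Results.MP_8ef15a_nt.ThreeAnti

def Anti (n : ℕ) : Prop :=
  0 < n ∧ ∀ i < (Nat.digits 3 n).length,
    (Nat.digits 3 n).getD i 0 + (Nat.digits 3 n).getD ((Nat.digits 3 n).length - 1 - i) 0 = 2

open Pool.Agent.H17.Anti in
theorem result (N : ℕ) (hN : 0 < N) (h : N ∉ ({24, 37, 49, 117, 421} : Set ℕ)) :
    Anti N ∨ (∃ a b, Anti a ∧ Anti b ∧ N = a + b) ∨
      ∃ a b c, Anti a ∧ Anti b ∧ Anti c ∧ N = a + b + c := by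
  have A : ∀ n, An n → Anti n := fun n hn => ⟨hn.1, fun i hi => by
    have e := congrArg (fun l => l[i]?) hn.2
    have h3 := Nat.digits_lt_base (b := 3) (m := n) (by norm_num) (List.getElem_mem hi)
    simp only [List.getElem?_reverse hi, List.getElem?_map, List.getElem?_eq_getElem hi,
      Option.map_some] at e
    rw [List.getD_eq_getElem?_getD, List.getD_eq_getElem?_getD, e, List.getElem?_eq_getElem hi]
    simp only [Option.getD_some]
    omega⟩
  by_cases hl : N < 3 ^ 13
  · obtain ⟨x, y, z, hx, hy, hz, e⟩ := small N hl (by simpa using h)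
    rcases hx with rfl | hx <;> rcases hy with rfl | hy <;> rcases hz with rfl | hz
    · omega
    · exact Or.inl (A _ (by simpa [← e] using hz))
    · exact Or.inl (A _ (by simpa [← e] using hy))
    · exact Or.inr (Or.inl ⟨y, z, A _ hy, A _ hz, by omega⟩)
    · exact Or.inl (A _ (by simpa [← e] using hx))
    · exact Or.inr (Or.inl ⟨x, z, A _ hx, A _ hz, by omega⟩)
    · exact Or.inr (Or.inl ⟨x, y, A _ hx, A _ hy, by omega⟩)
    · exact Or.inr (Or.inr ⟨x, y, z, A _ hx, A _ hy, A _ hz, e.symm⟩)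
  · obtain ⟨x, y, z, hx, hy, hz, e⟩ := large N (by omega)
    exact Or.inr (Or.inr ⟨x, y, z, A _ hx, A _ hy, A _ hz, e.symm⟩)

end Pool.Agent.Results.MP_8ef15a_nt.ThreeAnti
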